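import Pool.Agent.Q188.Pyth.Two

/-!
# The Pythagorean inequality for isoperimetric profiles of products fails

For the two-sided exponential law `μ` (density `e^{-|x|}/2`) and `a = 3/(4e)` one has
`R_{μ ⊗ μ}(a)² ≤ 8/9`, as the half-plane `{x + y < -1}` shows, whereas
`R_μ(a₁)² + R_μ(a₂)² ≥ 1` for all `a₁ a₂ = a`.
-/

set_option autoImplicit false

open MeasureTheory Filter Topology Set Q188.Pyth
open scoped ENNReal

namespace Pool.Agent.Results.MP_662df3_gt.PythagoreanProfileFails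

/-- There are symmetric log-concave probability laws `μ₁`, `μ₂` on the line and an `a ∈ (0,1)` with
`R_{μ₁ ⊗ μ₂}(a)² < inf_{a₁ a₂ = a} [R_{μ₁}(a₁)² + R_{μ₂}(a₂)²]`. -/
theorem result : ∃ μ₁ μ₂ : Measure ℝ, SymLogConcave μ₁ ∧ SymLogConcave μ₂ ∧
    ∃ a : ℝ, 0 < a ∧ a < 1 ∧
      (R (prodMeasure μ₁ μ₂) a) ^ 2 <
        ⨅ (a₁ : ℝ) (a₂ : ℝ) (_ : 0 < a₁ ∧ a₁ ≤ 1 ∧ 0 < a₂ ∧ a₂ ≤ 1 ∧ a₁ * a₂ = a),
          ((R μ₁ a₁) ^ 2 + (R μ₂ a₂) ^ 2) := by
  refine ⟨lap, lap, symLogConcave_lap, symLogConcave_lap, 3 / 4 * Real.exp (-1), by positivity,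
    ?_, ?_⟩
  · have : Real.exp (-1) < 1 := Real.exp_lt_one_iff.2 (by norm_num)
    linarith
  · refine R_lt.trans_le ?_
    refine le_iInf fun a₁ => le_iInf fun a₂ => le_iInf fun h => ?_
    obtain ⟨h1, h1', h2, h2', h3⟩ := h
    have R1 := R_ge h1
    have R2 := R_ge h2
    have hkey : 1 ≤ (min 1 ((1 - a₁) / a₁)) ^ 2 + (min 1 ((1 - a₂) / a₂)) ^ 2 := by
      by_cases ha : 1 ≤ (1 - a₁) / a₁
      · rw [min_eq_left ha]
        nlinarith [sq_nonneg (min 1 ((1 - a₂) / a₂))]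
      by_cases hb : 1 ≤ (1 - a₂) / a₂
      · rw [min_eq_left hb]
        nlinarith [sq_nonneg (min 1 ((1 - a₁) / a₁))]
      push Not at ha hb
      rw [min_eq_right ha.le, min_eq_right hb.le]
      have e1 : (1 - a₁) / a₁ = 1 / a₁ - 1 := by field_simp
      have e2 : (1 - a₂) / a₂ = 1 / a₂ - 1 := by field_simp
      rw [e1, e2]
      have u1 : 1 ≤ 1 / a₁ := by rw [le_div_iff₀ h1]; linarith
      have u2 : 1 ≤ 1 / a₂ := by rw [le_div_iff₀ h2]; linarith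
      have hex : Real.exp (-1) < 0.3678794412 := Real.exp_neg_one_lt_d9
      have hprod : 3.5 ≤ (1 / a₁) * (1 / a₂) := by
        rw [one_div_mul_one_div, h3, le_div_iff₀ (by positivity)]
        linarith
      set u := 1 / a₁
      set v := 1 / a₂
      have hs : 3.5 ≤ u + v := by
        nlinarith [sq_nonneg (u - v)]
      nlinarith [sq_nonneg (u - v), sq_nonneg (u + v - 2)]
    have m1 : 0 ≤ min 1 ((1 - a₁) / a₁) := le_min zero_le_one (div_nonneg (by linarith) h1.le)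
    have m2 : 0 ≤ min 1 ((1 - a₂) / a₂) := le_min zero_le_one (div_nonneg (by linarith) h2.le)
    calc (1 : ℝ≥0∞) = ENNReal.ofReal 1 := ENNReal.ofReal_one.symm
      _ ≤ ENNReal.ofReal ((min 1 ((1 - a₁) / a₁)) ^ 2 + (min 1 ((1 - a₂) / a₂)) ^ 2) :=
          ENNReal.ofReal_le_ofReal hkey
      _ = ENNReal.ofReal (min 1 ((1 - a₁) / a₁)) ^ 2 + ENNReal.ofReal (min 1 ((1 - a₂) / a₂)) ^ 2 := by
          rw [ENNReal.ofReal_add (by positivity) (by positivity), ENNReal.ofReal_pow m1,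
            ENNReal.ofReal_pow m2]
      _ ≤ (R lap a₁) ^ 2 + (R lap a₂) ^ 2 := by gcongr

end Pool.Agent.Results.MP_662df3_gt.PythagoreanProfileFails
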